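import Mathlib

set_option autoImplicit false

namespace Pool.Agent.HLF

open Set Filter Topology

section Box

variable {E : Type*} [AddCommGroup E] [Module ℝ E]

/-- The set of combinations `∑_{l<n} a_l e_l` with `|a_l| ≤ c`. -/
def boxC (e : ℕ → E) (n : ℕ) (c : ℝ) : Set E :=
  (fun a : ℕ → ℝ => ∑ l ∈ Finset.range n, a l • e l) ''
    (Set.pi univ (fun _ : ℕ => Icc (-c) c))

theorem mem_boxC_iff {e : ℕ → E} {n : ℕ} {c : ℝ} {x : E} :
    x ∈ boxC e n c ↔ ∃ a : ℕ → ℝ, (∀ l, |a l| ≤ c) ∧ x = ∑ l ∈ Finset.range n, a l • e l := by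
  constructor
  · rintro ⟨a, ha, rfl⟩
    exact ⟨a, fun l => abs_le.2 (ha l (mem_univ l)), rfl⟩
  · rintro ⟨a, ha, rfl⟩
    exact ⟨a, fun l _ => abs_le.1 (ha l), rfl⟩

theorem boxC_add {e : ℕ → E} {n : ℕ} {c c' : ℝ} {x y : E} (hx : x ∈ boxC e n c)
    (hy : y ∈ boxC e n c') : x + y ∈ boxC e n (c + c') := by
  rw [mem_boxC_iff] at *
  obtain ⟨a, ha, rfl⟩ := hx
  obtain ⟨b, hb, rfl⟩ := hy
  refine ⟨fun l => a l + b l, fun l => (abs_add_le _ _).trans (add_le_add (ha l) (hb l)), ?_⟩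
  rw [← Finset.sum_add_distrib]
  exact Finset.sum_congr rfl fun l _ => (add_smul _ _ _).symm

theorem boxC_smul {e : ℕ → E} {n : ℕ} {c : ℝ} {x : E} (r : ℝ) (hx : x ∈ boxC e n c) :
    r • x ∈ boxC e n (|r| * c) := by
  rw [mem_boxC_iff] at *
  obtain ⟨a, ha, rfl⟩ := hx
  refine ⟨fun l => r * a l, fun l => ?_, ?_⟩
  · rw [abs_mul]
    exact mul_le_mul_of_nonneg_left (ha l) (abs_nonneg r)
  · rw [Finset.smul_sum]
    exact Finset.sum_congr rfl fun l _ => smul_smul _ _ _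

theorem boxC_mono {e : ℕ → E} {n m : ℕ} {c c' : ℝ} (hnm : n ≤ m) (hc : c ≤ c')
    (hc' : 0 ≤ c') : boxC e n c ⊆ boxC e m c' := by
  intro x hx
  rw [mem_boxC_iff] at *
  obtain ⟨a, ha, rfl⟩ := hx
  refine ⟨fun l => if l < n then a l else 0, fun l => ?_, ?_⟩
  · by_cases h : l < n
    · simp only [h, if_true]
      exact (ha l).trans hc
    · simp only [h, if_false, abs_zero]
      exact hc'
  · have h1 : ∑ l ∈ Finset.range m, (if l < n then a l else 0) • e l
        = ∑ l ∈ Finset.range n, (if l < n then a l else 0) • e l := by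
      symm
      apply Finset.sum_subset (Finset.range_mono hnm)
      intro l _ hl
      have : ¬ l < n := by simpa using hl
      simp [this]
    rw [h1]
    apply Finset.sum_congr rfl
    intro l hl
    have : l < n := by simpa using hl
    simp [this]

theorem boxC_neg {e : ℕ → E} {n : ℕ} {c : ℝ} {x : E} (hx : x ∈ boxC e n c) :
    -x ∈ boxC e n c := by
  have := boxC_smul (-1) hx
  simpa using this

theorem boxC_single {e : ℕ → E} {n l : ℕ} (hl : l < n) : e l ∈ boxC e n 1 := by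
  rw [mem_boxC_iff]
  refine ⟨fun m => if m = l then 1 else 0, fun m => ?_, ?_⟩
  · by_cases h : m = l <;> simp [h]
  · rw [Finset.sum_eq_single l]
    · simp
    · intro b _ hb
      simp [hb]
    · intro h
      exact absurd (Finset.mem_range.2 hl) h

theorem boxC_congr {e e' : ℕ → E} {n : ℕ} {c : ℝ} (h : ∀ l < n, e l = e' l) :
    boxC e n c = boxC e' n c := by
  ext x
  rw [mem_boxC_iff, mem_boxC_iff]
  constructor
  · rintro ⟨a, ha, rfl⟩
    exact ⟨a, ha, Finset.sum_congr rfl fun l hl => by rw [h l (Finset.mem_range.1 hl)]⟩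
  · rintro ⟨a, ha, rfl⟩
    exact ⟨a, ha, Finset.sum_congr rfl fun l hl => by rw [h l (Finset.mem_range.1 hl)]⟩

theorem boxC_nonneg_of_mem {e : ℕ → E} {n : ℕ} {c : ℝ} {x : E} (hx : x ∈ boxC e n c) :
    0 ≤ c := by
  rw [mem_boxC_iff] at hx
  obtain ⟨a, ha, _⟩ := hx
  exact (abs_nonneg _).trans (ha 0)

/-- Every element of the span lies in some box. -/
theorem exists_mem_boxC_of_mem_span {e : ℕ → E} {x : E}
    (hx : x ∈ Submodule.span ℝ (range e)) : ∃ n : ℕ, x ∈ boxC e n n := by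
  induction hx using Submodule.span_induction with
  | mem x h =>
    obtain ⟨l, rfl⟩ := h
    exact ⟨l + 1, boxC_mono le_rfl (by push_cast; linarith [(Nat.cast_nonneg l : (0:ℝ) ≤ l)])
      (by positivity) (boxC_single (Nat.lt_succ_self l))⟩
  | zero =>
    refine ⟨0, ?_⟩
    rw [mem_boxC_iff]
    exact ⟨fun _ => 0, fun _ => by simp, by simp⟩
  | add x y _ _ hx hy =>
    obtain ⟨n, hn⟩ := hx
    obtain ⟨m, hm⟩ := hy
    refine ⟨n + m, ?_⟩
    have h1 : x ∈ boxC e (n + m) n := boxC_mono (by omega) le_rfl (by positivity) hn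
    have h2 : y ∈ boxC e (n + m) m := boxC_mono (by omega) le_rfl (by positivity) hm
    have := boxC_add h1 h2
    simpa using this
  | smul r x _ hx =>
    obtain ⟨n, hn⟩ := hx
    obtain ⟨m, hm⟩ := exists_nat_ge (|r| * n)
    refine ⟨n + m, boxC_mono (by omega) ?_ (by positivity) (boxC_smul r hn)⟩
    push_cast
    linarith [(Nat.cast_nonneg n : (0:ℝ) ≤ n)]

theorem boxC_subset_span {e : ℕ → E} {n : ℕ} {c : ℝ} :
    boxC e n c ⊆ Submodule.span ℝ (range e) := by
  intro x hx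
  rw [mem_boxC_iff] at hx
  obtain ⟨a, _, rfl⟩ := hx
  exact Submodule.sum_mem _ fun l _ => Submodule.smul_mem _ _ (Submodule.subset_span ⟨l, rfl⟩)

variable [TopologicalSpace E] [IsTopologicalAddGroup E] [ContinuousSMul ℝ E]

theorem isCompact_boxC (e : ℕ → E) (n : ℕ) (c : ℝ) : IsCompact (boxC e n c) := by
  apply (isCompact_univ_pi fun _ => isCompact_Icc).image
  exact continuous_finsetSum _ fun l _ => (continuous_apply l).smul continuous_const

end Box

/-- A strong recursion principle. -/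
theorem exists_strongrec {α : Type*} [Inhabited α] (P : (ℕ → α) → ℕ → α → Prop)
    (hP : ∀ (g h : ℕ → α) n a, (∀ m < n, g m = h m) → P g n a → P h n a)
    (hex : ∀ g n, ∃ a, P g n a) : ∃ f : ℕ → α, ∀ n, P f n (f n) := by
  choose c hc using hex
  let F : ∀ n : ℕ, (∀ m : ℕ, m < n → α) → α := fun n prev =>
    c (fun m => if h : m < n then prev m h else default) n
  let f : ℕ → α := fun n => WellFounded.fix (Nat.lt_wfRel.wf) F n
  have hf : ∀ n, f n = F n (fun m _ => f m) := fun n => WellFounded.fix_eq _ _ _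
  refine ⟨f, fun n => ?_⟩
  have h1 : P (fun m => if h : m < n then f m else default) n (f n) := by
    rw [hf n]
    exact hc _ n
  refine hP _ _ n _ ?_ h1
  intro m hm
  simp [hm]

section Sep

variable {E : Type*} [AddCommGroup E] [Module ℝ E] [TopologicalSpace E]
  [IsTopologicalAddGroup E] [ContinuousSMul ℝ E]

/-- A uniformly separated sequence leaves every compact set uniformly. -/
theorem exists_nhds_far_of_compact {U : Set E} (hU : U ∈ 𝓝 (0 : E)) :
    ∃ V ∈ 𝓝 (0 : E), ∀ e : ℕ → E, (∀ j k, j ≠ k → e j - e k ∉ U) →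
      ∀ K : Set E, IsCompact K → ∃ j, ∀ y ∈ K, e j - y ∉ V := by
  -- V with (v1+v2)-(v3+v4) in U
  have hcont : Tendsto (fun p : (E × E) × (E × E) => (p.1.1 + p.1.2) - (p.2.1 + p.2.2))
      (𝓝 ((0, 0), (0, 0))) (𝓝 0) := by
    have : Continuous (fun p : (E × E) × (E × E) => (p.1.1 + p.1.2) - (p.2.1 + p.2.2)) := by
      fun_prop
    have h := this.tendsto ((0, 0), (0, 0))
    simpa using h
  have hmem := hcont hU
  rw [nhds_prod_eq, nhds_prod_eq] at hmem
  rw [mem_map] at hmem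
  obtain ⟨A, hA, B, hB, hAB⟩ := mem_prod_iff.1 hmem
  obtain ⟨A1, hA1, A2, hA2, hA12⟩ := mem_prod_iff.1 hA
  obtain ⟨B1, hB1, B2, hB2, hB12⟩ := mem_prod_iff.1 hB
  let V : Set E := (A1 ∩ A2) ∩ (B1 ∩ B2)
  have hV : V ∈ 𝓝 (0 : E) := inter_mem (inter_mem hA1 hA2) (inter_mem hB1 hB2)
  have hVU : ∀ v1 ∈ V, ∀ v2 ∈ V, ∀ v3 ∈ V, ∀ v4 ∈ V, (v1 + v2) - (v3 + v4) ∈ U := by
    intro v1 h1 v2 h2 v3 h3 v4 h4
    have : ((v1, v2), (v3, v4)) ∈ A ×ˢ B :=
      ⟨hA12 ⟨h1.1.1, h2.1.2⟩, hB12 ⟨h3.2.1, h4.2.2⟩⟩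
    exact hAB this
  refine ⟨V, hV, fun e he K hK => ?_⟩
  by_contra hcon
  push Not at hcon
  choose y hyK hyV using hcon
  -- finite cover
  have hcov : ∀ x ∈ K, {z : E | z - x ∈ V} ∈ 𝓝 x := by
    intro x _
    have : Tendsto (fun z : E => z - x) (𝓝 x) (𝓝 0) := by
      have h : Continuous fun z : E => z - x := by fun_prop
      have h2 := h.tendsto x
      simpa using h2
    exact this hV
  obtain ⟨F, hFK, hF⟩ := hK.elim_nhds_subcover (fun x => {z : E | z - x ∈ V}) hcov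
  have hsel : ∀ j, ∃ x ∈ F, y j - x ∈ V := by
    intro j
    have := hF (hyK j)
    simpa using this
  choose x hxF hxV using hsel
  -- pigeonhole
  obtain ⟨j, k, hjk, hx⟩ : ∃ j k, j ≠ k ∧ x j = x k := by
    have : ¬ Function.Injective x := by
      intro hinj
      exact Set.infinite_of_injective_forall_mem hinj hxF F.finite_toSet
    rw [Function.Injective] at this
    push Not at this
    obtain ⟨j, k, h1, h2⟩ := this
    exact ⟨j, k, h2, h1⟩
  apply he j k hjk
  have h1 := hVU _ (hyV j) _ (hxV j) _ (hyV k) _ (hxV k)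
  have h2 : (e j - y j + (y j - x j)) - (e k - y k + (y k - x k)) = e j - e k := by
    rw [hx]; abel
  rwa [h2] at h1

/-- Selection of a subsequence which leaves the boxes of the previous members. -/
theorem exists_selection {U : Set E} (hU : U ∈ 𝓝 (0 : E)) (e : ℕ → E)
    (he : ∀ j k, j ≠ k → e j - e k ∉ U) :
    ∃ V ∈ 𝓝 (0 : E), ∃ f : ℕ → ℕ, ∀ j : ℕ, ∀ y ∈ boxC (e ∘ f) j j, e (f j) - y ∉ V := by
  obtain ⟨V, hV, H⟩ := exists_nhds_far_of_compact hU
  refine ⟨V, hV, ?_⟩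
  apply exists_strongrec (α := ℕ)
    (fun g n a => ∀ y ∈ boxC (e ∘ g) n n, e a - y ∉ V)
  · intro g h n a hgh hg y hy
    rw [← boxC_congr (e := e ∘ g)] at hy
    · exact hg y hy
    · intro l hl
      simp [hgh l hl]
  · intro g n
    exact H e he _ (isCompact_boxC _ _ _)

end Sep

end Pool.Agent.HLF
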