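import Mathlib

set_option autoImplicit false

namespace Pool.Agent.HLF

open Set Filter Topology

variable {E : Type*} [AddCommGroup E] [Module ℝ E] [TopologicalSpace E]
  [IsTopologicalAddGroup E] [ContinuousSMul ℝ E]

/-- Step 1: a non-separable set is not covered by countably many translates of some
neighbourhood. -/
theorem exists_nhds_not_covered [FirstCountableTopology E] {C : Set E}
    (hC : ¬ TopologicalSpace.SeparableSpace C) :
    ∃ U ∈ 𝓝 (0 : E), ∀ D : Set E, D ⊆ C → D.Countable → ∃ x ∈ C, ∀ d ∈ D, x - d ∉ U := by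
  by_contra hcon
  push Not at hcon
  obtain ⟨u, hu⟩ := (𝓝 (0 : E)).exists_antitone_basis
  have h1 : ∀ n, ∃ D : Set E, D ⊆ C ∧ D.Countable ∧ ∀ x ∈ C, ∃ d ∈ D, x - d ∈ u n := by
    intro n
    obtain ⟨D, hD, hDc, h⟩ := hcon (u n) (hu.1.mem_of_mem trivial)
    exact ⟨D, hD, hDc, h⟩
  choose D hDC hDc hD using h1
  apply hC
  refine ⟨⟨Subtype.val ⁻¹' (⋃ n, D n), ?_, ?_⟩⟩
  · exact (countable_iUnion hDc).preimage Subtype.val_injective
  · rw [Subtype.dense_iff]
    intro x hx
    rw [image_preimage_eq_inter_range, Subtype.range_coe]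
    choose d hdD hdu using fun n => hD n x hx
    have hlim : Tendsto (fun n => x - d n) atTop (𝓝 0) := by
      rw [hu.1.tendsto_right_iff]
      intro n _
      filter_upwards [eventually_ge_atTop n] with m hm
      exact hu.2 hm (hdu m)
    have hlim2 : Tendsto d atTop (𝓝 x) := by
      have h := hlim.const_sub x
      simpa using h
    exact mem_closure_of_tendsto hlim2
      (Eventually.of_forall fun n => ⟨mem_iUnion.2 ⟨n, hdD n⟩, hDC n (hdD n)⟩)

/-- Step 2: an uncountable separated subset. -/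
theorem exists_uncountable_separated [FirstCountableTopology E] {C : Set E}
    (hC : ¬ TopologicalSpace.SeparableSpace C) :
    ∃ U ∈ 𝓝 (0 : E), ∃ S : Set E, S ⊆ C ∧ ¬ S.Countable ∧
      ∀ x ∈ S, ∀ y ∈ S, x ≠ y → x - y ∉ U := by
  obtain ⟨U, hU, h⟩ := exists_nhds_not_covered hC
  have hUn : -U ∈ 𝓝 (0 : E) := by
    have h1 : Tendsto (fun x : E => -x) (𝓝 0) (𝓝 0) := by
      have := (continuous_neg (G := E)).tendsto 0
      simpa using this
    exact h1 hU
  obtain ⟨S, hS⟩ := zorn_subset {S : Set E | S ⊆ C ∧ S.Pairwise (fun x y => x - y ∉ U ∩ -U)} (by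
    intro c hc hchain
    refine ⟨⋃₀ c, ⟨sUnion_subset fun s hs => (hc hs).1, ?_⟩, fun s hs => subset_sUnion_of_mem hs⟩
    rw [pairwise_sUnion hchain.directedOn]
    exact fun s hs => (hc hs).2)
  refine ⟨U ∩ -U, inter_mem hU hUn, S, hS.1.1, ?_, fun x hx y hy hxy => hS.1.2 hx hy hxy⟩
  intro hcount
  obtain ⟨x, hxC, hx⟩ := h S hS.1.1 hcount
  have hxS : x ∉ S := by
    intro hxS
    have := hx x hxS
    rw [sub_self] at this
    exact this (mem_of_mem_nhds hU)
  have hins : insert x S ∈ {S : Set E | S ⊆ C ∧ S.Pairwise (fun x y => x - y ∉ U ∩ -U)} := by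
    refine ⟨insert_subset hxC hS.1.1, ?_⟩
    rw [pairwise_insert]
    refine ⟨hS.1.2, fun y hy _ => ⟨fun h => hx y hy h.1, fun h => ?_⟩⟩
    have := h.2
    rw [Set.mem_neg, neg_sub] at this
    exact hx y hy this
  have := hS.2 hins (subset_insert x S)
  exact hxS (this (mem_insert x S))

/-- Step 3: a bounded sequence in an uncountable set. -/
theorem exists_bounded_seq [FirstCountableTopology E] {S : Set E} (hS : ¬ S.Countable) :
    ∃ e : ℕ → E, Function.Injective e ∧ (∀ n, e n ∈ S) ∧ Bornology.IsVonNBounded ℝ (range e) := by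
  obtain ⟨u, hu⟩ := (𝓝 (0 : E)).exists_antitone_basis
  have hstep : ∀ (n : ℕ) (T : {T : Set E // ¬ T.Countable}), ∃ T' : {T : Set E // ¬ T.Countable},
      ∃ x ∈ T.1, T'.1 ⊆ T.1 \ {x} ∧ ∃ k : ℕ, ∀ y ∈ T'.1, ((k : ℝ) + 1)⁻¹ • y ∈ u n := by
    rintro n ⟨T, hT⟩
    have hne : T.Nonempty := by
      rw [nonempty_iff_ne_empty]
      rintro rfl
      exact hT countable_empty
    obtain ⟨x, hx⟩ := hne
    have h1 : ¬ (T \ {x}).Countable := by
      intro h
      apply hT
      have : T ⊆ insert x (T \ {x}) := by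
        intro y hy
        by_cases hyx : y = x
        · exact Or.inl hyx
        · exact Or.inr ⟨hy, hyx⟩
      exact (h.insert x).mono this
    have h2 : T \ {x} ⊆ ⋃ k : ℕ, {y ∈ T \ {x} | ((k : ℝ) + 1)⁻¹ • y ∈ u n} := by
      intro y hy
      have hlim : Tendsto (fun k : ℕ => ((k : ℝ) + 1)⁻¹ • y) atTop (𝓝 0) := by
        have h3 : Tendsto (fun k : ℕ => ((k : ℝ) + 1)⁻¹) atTop (𝓝 0) := by
          have := tendsto_one_div_add_atTop_nhds_zero_nat (𝕜 := ℝ)
          simpa using this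
        have := h3.smul_const y
        simpa using this
      obtain ⟨k, hk⟩ := (hlim.eventually (hu.1.mem_of_mem (i := n) trivial)).exists
      exact mem_iUnion.2 ⟨k, hy, hk⟩
    by_contra hcon
    push Not at hcon
    apply h1
    refine (countable_iUnion (t := fun k : ℕ => {y ∈ T \ {x} | ((k : ℝ) + 1)⁻¹ • y ∈ u n})
      fun k => ?_).mono h2
    by_contra hk
    obtain ⟨y, hy, hyn⟩ := hcon ⟨_, hk⟩ x hx (fun y hy => hy.1) k
    exact hyn hy.2
  choose next pick hpick hnext hk using hstep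
  let T : ℕ → {T : Set E // ¬ T.Countable} := fun n => Nat.rec ⟨S, hS⟩ (fun n T => next n T) n
  have hT : ∀ n, T (n + 1) = next n (T n) := fun n => rfl
  have hanti : ∀ n, (T (n + 1)).1 ⊆ (T n).1 := fun n => by
    rw [hT]; exact (hnext n (T n)).trans sdiff_subset
  have hanti' : ∀ m n, n ≤ m → (T m).1 ⊆ (T n).1 := by
    intro m n hnm
    induction m, hnm using Nat.le_induction with
    | base => exact Subset.rfl
    | succ m _ ih => exact (hanti m).trans ih
  let e : ℕ → E := fun n => pick n (T n)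
  have heT : ∀ n, e n ∈ (T n).1 := fun n => hpick n (T n)
  have heT' : ∀ m n, n < m → e m ∈ (next n (T n)).1 := by
    intro m n hnm
    have := hanti' m (n + 1) hnm (heT m)
    rwa [hT] at this
  refine ⟨e, ?_, fun n => hanti' n 0 (Nat.zero_le n) (heT n), ?_⟩
  · intro m n hmn
    by_contra hne
    rcases lt_or_gt_of_ne hne with h | h
    · have := (hnext m (T m) (heT' n m h)).2
      exact this hmn.symm
    · have := (hnext n (T n) (heT' m n h)).2
      exact this hmn
  · intro V hV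
    obtain ⟨W, hW, hWbal, hWV⟩ : ∃ W ∈ 𝓝 (0 : E), Balanced ℝ W ∧ W ⊆ V := by
      have := (nhds_basis_balanced ℝ E).mem_iff.1 hV
      obtain ⟨W, hW, h⟩ := this
      exact ⟨W, hW.1, hW.2, h⟩
    obtain ⟨n, _, hn⟩ := hu.1.mem_iff.1 hW
    obtain ⟨k, hk'⟩ := hk n (T n)
    have hsub : range e ⊆ (e '' (Iic n)) ∪ (next n (T n)).1 := by
      rintro _ ⟨m, rfl⟩
      by_cases hm : m ≤ n
      · exact Or.inl ⟨m, hm, rfl⟩
      · exact Or.inr (heT' m n (by omega))
    have hfin : (e '' (Iic n)).Finite := (Set.finite_Iic n).image e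
    have h1 : Absorbs ℝ V (e '' (Iic n)) := (absorbent_nhds_zero hV).absorbs_finite hfin
    have h2 : Absorbs ℝ V (next n (T n)).1 := by
      refine Absorbs.mono_left ?_ hWV
      rw [absorbs_iff_norm]
      refine ⟨(k : ℝ) + 1, fun c hc y hy => ?_⟩
      have hk0 : (0 : ℝ) < (k : ℝ) + 1 := by positivity
      have hc0 : c ≠ 0 := by
        rintro rfl
        rw [norm_zero] at hc
        linarith
      have hy2 : ((k : ℝ) + 1)⁻¹ • y ∈ W := hn (hk' y hy)
      have hy3 : (c⁻¹ * ((k : ℝ) + 1)) • (((k : ℝ) + 1)⁻¹ • y) ∈ W := by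
        apply hWbal.smul_mem _ hy2
        rw [norm_mul, norm_inv, Real.norm_of_nonneg hk0.le]
        rw [inv_mul_le_iff₀ (by linarith)]
        simpa using hc
      rw [smul_smul, mul_assoc, mul_inv_cancel₀ hk0.ne', mul_one] at hy3
      rw [Set.mem_smul_set_iff_inv_smul_mem₀ hc0]
      exact hy3
    exact (h1.union h2).mono_right hsub

/-- A non-separable set contains a bounded uniformly separated sequence. -/
theorem exists_bounded_separated [FirstCountableTopology E] {C : Set E}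
    (hC : ¬ TopologicalSpace.SeparableSpace C) :
    ∃ e : ℕ → E, (∀ n, e n ∈ C) ∧ Bornology.IsVonNBounded ℝ (range e) ∧
      ∃ U ∈ 𝓝 (0 : E), ∀ j k, j ≠ k → e j - e k ∉ U := by
  obtain ⟨U, hU, S, hSC, hS, hsep⟩ := exists_uncountable_separated hC
  obtain ⟨e, hinj, heS, hb⟩ := exists_bounded_seq hS
  exact ⟨e, fun n => hSC (heS n), hb, U, hU, fun j k hjk =>
    hsep _ (heS j) _ (heS k) (fun h => hjk (hinj h))⟩

end Pool.Agent.HLF
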