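import Pool.Agent.Lib.MP_5a68e6_HLF.A

set_option autoImplicit false
set_option linter.unusedSectionVars false

namespace Pool.Agent.HLF

open Set Filter Topology Pointwise

variable {E : Type*} [AddCommGroup E] [Module ℝ E]

/-- The hat function with peak at `n`. -/
noncomputable def hat (n : ℕ) (τ : ℝ) : ℝ := max 0 (1 - |τ - n|)

/-- The piecewise linear path through `e 0, e 1, ...`. -/
noncomputable def pathZ (e : ℕ → E) (τ : ℝ) : E := ∑ᶠ n : ℕ, hat n τ • e n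

theorem hat_of_far {n : ℕ} {τ : ℝ} (h : 1 ≤ |τ - n|) : hat n τ = 0 := by
  unfold hat
  exact max_eq_left (by linarith)

/-- Formula for the path. -/
theorem pathZ_eq (e : ℕ → E) (k : ℕ) {b : ℝ} (hb0 : 0 ≤ b) (hb1 : b ≤ 1) :
    pathZ e (k + b) = (1 - b) • e k + b • e (k + 1) := by
  unfold pathZ
  have hsupp : (Function.support fun n : ℕ => hat n ((k : ℝ) + b) • e n) ⊆
      (({k, k + 1} : Finset ℕ) : Set ℕ) := by
    intro n hn
    rw [Function.mem_support] at hn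
    by_contra hmem
    apply hn
    have h1 : n ≠ k ∧ n ≠ k + 1 := by simpa using hmem
    rw [hat_of_far, zero_smul]
    rcases lt_or_gt_of_ne h1.1 with h | h
    · have : (n : ℝ) + 1 ≤ k := by exact_mod_cast h
      rw [le_abs]
      left
      linarith
    · have h2 : k + 2 ≤ n := by omega
      have : (k : ℝ) + 2 ≤ n := by exact_mod_cast h2
      rw [le_abs]
      right
      linarith
  rw [finsum_eq_sum_of_support_subset _ hsupp, Finset.sum_pair (by omega)]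
  congr 1
  · congr 1
    unfold hat
    rw [add_sub_cancel_left, abs_of_nonneg hb0]
    exact max_eq_right (by linarith)
  · congr 1
    unfold hat
    push_cast
    rw [show (k : ℝ) + b - (k + 1) = -(1 - b) by ring, abs_neg, abs_of_nonneg (by linarith)]
    rw [max_eq_right (by linarith)]
    ring

/-- Decomposition of a non-negative parameter. -/
theorem exists_param (τ : ℝ) (hτ : 0 ≤ τ) :
    ∃ (k : ℕ) (b : ℝ), 0 ≤ b ∧ b < 1 ∧ τ = k + b ∧ (k : ℝ) ≤ τ ∧ τ < k + 1 := by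
  refine ⟨⌊τ⌋₊, τ - ⌊τ⌋₊, ?_, ?_, by ring, Nat.floor_le hτ, Nat.lt_floor_add_one τ⟩
  · linarith [Nat.floor_le hτ]
  · linarith [Nat.lt_floor_add_one τ]

theorem pathZ_mem_convex {C : Set E} (hC : Convex ℝ C) {e : ℕ → E} (he : ∀ n, e n ∈ C)
    {τ : ℝ} (hτ : 0 ≤ τ) : pathZ e τ ∈ C := by
  obtain ⟨k, b, hb0, hb1, rfl, _, _⟩ := exists_param τ hτ
  rw [pathZ_eq e k hb0 hb1.le]
  exact hC (he k) (he (k + 1)) (by linarith) hb0 (by ring)

theorem pathZ_mem_span {e : ℕ → E} {τ : ℝ} (hτ : 0 ≤ τ) :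
    pathZ e τ ∈ Submodule.span ℝ (range e) := by
  obtain ⟨k, b, hb0, hb1, rfl, _, _⟩ := exists_param τ hτ
  rw [pathZ_eq e k hb0 hb1.le]
  exact Submodule.add_mem _ (Submodule.smul_mem _ _ (Submodule.subset_span ⟨k, rfl⟩))
    (Submodule.smul_mem _ _ (Submodule.subset_span ⟨k + 1, rfl⟩))

theorem pathZ_mem_boxC {e : ℕ → E} {k : ℕ} {b : ℝ} (hb0 : 0 ≤ b) (hb1 : b ≤ 1) :
    pathZ e (k + b) ∈ boxC e (k + 2) 1 := by
  rw [pathZ_eq e k hb0 hb1]
  have h1 : (1 - b) • e k ∈ boxC e (k + 2) (|1 - b| * 1) :=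
    boxC_smul _ (boxC_single (by omega))
  have h2 : b • e (k + 1) ∈ boxC e (k + 2) (|b| * 1) :=
    boxC_smul _ (boxC_single (by omega))
  have h3 := boxC_add h1 h2
  refine boxC_mono le_rfl ?_ zero_le_one h3
  rw [abs_of_nonneg hb0, abs_of_nonneg (by linarith : (0:ℝ) ≤ 1 - b)]
  linarith

variable [TopologicalSpace E] [IsTopologicalAddGroup E] [ContinuousSMul ℝ E]

theorem continuous_pathZ (e : ℕ → E) : Continuous (pathZ e) := by
  unfold pathZ
  apply continuous_finsum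
  · intro n
    have : Continuous (hat n) := by
      unfold hat
      fun_prop
    exact this.smul continuous_const
  · intro τ
    refine ⟨Ioo (τ - 1) (τ + 1), Ioo_mem_nhds (by linarith) (by linarith), ?_⟩
    apply (Set.finite_Iic ⌈|τ| + 2⌉₊).subset
    rintro n ⟨σ, hσ1, hσ2⟩
    rw [Function.mem_support] at hσ1
    have h1 : ¬ 1 ≤ |σ - n| := fun h => hσ1 (by rw [hat_of_far h, zero_smul])
    push Not at h1
    rw [abs_lt] at h1
    rw [mem_Iic]
    have h2 : (n : ℝ) ≤ |τ| + 2 := by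
      have := le_abs_self τ
      linarith [h1.1, hσ2.2]
    exact_mod_cast h2.trans (Nat.le_ceil _)

/-- Scalars: small multiples of a bounded sequence are small. -/
theorem exists_delta_of_bounded {e : ℕ → E} (hb : Bornology.IsVonNBounded ℝ (range e))
    {W : Set E} (hW : W ∈ 𝓝 (0 : E)) : ∃ δ > 0, ∀ s : ℝ, |s| ≤ δ → ∀ n, s • e n ∈ W := by
  obtain ⟨W', hW', hbal, hWW⟩ : ∃ W' ∈ 𝓝 (0 : E), Balanced ℝ W' ∧ W' ⊆ W := by
    obtain ⟨W', h, h'⟩ := (nhds_basis_balanced ℝ E).mem_iff.1 hW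
    exact ⟨W', h.1, h.2, h'⟩
  obtain ⟨r, hr⟩ := (absorbs_iff_norm.1 (hb hW'))
  refine ⟨(max r 1)⁻¹, by positivity, fun s hs n => hWW ?_⟩
  have hm : 0 < max r 1 := by positivity
  have h1 : e n ∈ (max r 1) • W' := hr (max r 1) (by
    rw [Real.norm_of_nonneg hm.le]; exact le_max_left _ _) ⟨n, rfl⟩
  obtain ⟨y, hy, hyn⟩ := h1
  have hyn' : (max r 1) • y = e n := hyn
  rw [← hyn', smul_smul]
  apply hbal.smul_mem _ hy
  rw [norm_mul, Real.norm_of_nonneg hm.le, Real.norm_eq_abs]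
  calc |s| * max r 1 ≤ (max r 1)⁻¹ * max r 1 := mul_le_mul_of_nonneg_right hs hm.le
    _ = 1 := inv_mul_cancel₀ hm.ne'

theorem exists_add_mem {W : Set E} (hW : W ∈ 𝓝 (0 : E)) :
    ∃ V ∈ 𝓝 (0 : E), ∀ v ∈ V, ∀ v' ∈ V, v + v' ∈ W := by
  have : Tendsto (fun p : E × E => p.1 + p.2) (𝓝 (0, 0)) (𝓝 0) := by
    have h : Continuous fun p : E × E => p.1 + p.2 := by fun_prop
    have := h.tendsto (0, 0)
    simpa using this
  have h := this hW
  rw [nhds_prod_eq, mem_map] at h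
  obtain ⟨A, hA, B, hB, hAB⟩ := mem_prod_iff.1 h
  exact ⟨A ∩ B, inter_mem hA hB, fun v hv v' hv' => hAB (show (v, v') ∈ A ×ˢ B from ⟨hv.1, hv'.2⟩)⟩

theorem exists_smul_sub_mem {W : Set E} (hW : W ∈ 𝓝 (0 : E)) (R : ℝ) :
    ∃ V ∈ 𝓝 (0 : E), ∀ s : ℝ, |s| ≤ R → ∀ v ∈ V, ∀ v' ∈ V, s • (v - v') ∈ W := by
  have hK : IsCompact (Icc (-R) R) := isCompact_Icc
  have h := hK.eventually_forall_of_forall_eventually (x₀ := ((0, 0) : E × E))
    (P := fun p s => s • (p.1 - p.2) ∈ W) (by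
      intro s _
      have hc : Continuous fun z : (E × E) × ℝ => z.2 • (z.1.1 - z.1.2) := by fun_prop
      have ht := hc.tendsto (((0, 0) : E × E), s)
      simp only [sub_self, smul_zero] at ht
      exact ht hW)
  rw [nhds_prod_eq] at h
  obtain ⟨A, hA, B, hB, hAB⟩ := mem_prod_iff.1 h
  refine ⟨A ∩ B, inter_mem hA hB, fun s hs v hv v' hv' => ?_⟩
  have := hAB (show (v, v') ∈ A ×ˢ B from ⟨hv.1, hv'.2⟩)
  exact this s (abs_le.1 hs)

/-- Boundedness of the path. -/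
theorem exists_delta_path {e : ℕ → E} (hb : Bornology.IsVonNBounded ℝ (range e))
    {W : Set E} (hW : W ∈ 𝓝 (0 : E)) :
    ∃ δ > 0, ∀ s : ℝ, |s| ≤ δ → ∀ τ : ℝ, 0 ≤ τ → s • pathZ e τ ∈ W := by
  obtain ⟨V, hV, hVW⟩ := exists_add_mem hW
  obtain ⟨δ, hδ, h⟩ := exists_delta_of_bounded hb hV
  refine ⟨δ, hδ, fun s hs τ hτ => ?_⟩
  obtain ⟨k, b, hb0, hb1, rfl, _, _⟩ := exists_param τ hτ
  rw [pathZ_eq e k hb0 hb1.le, smul_add, smul_smul, smul_smul]
  apply hVW
  · apply h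
    rw [abs_mul, abs_of_nonneg (by linarith : (0:ℝ) ≤ 1 - b)]
    calc |s| * (1 - b) ≤ |s| * 1 := mul_le_mul_of_nonneg_left (by linarith) (abs_nonneg s)
      _ ≤ δ := by linarith
  · apply h
    rw [abs_mul, abs_of_nonneg hb0]
    calc |s| * b ≤ |s| * 1 := mul_le_mul_of_nonneg_left hb1.le (abs_nonneg s)
      _ ≤ δ := by linarith

/-- The separation property of the path. -/
theorem separation {e : ℕ → E} (hb : Bornology.IsVonNBounded ℝ (range e))
    {V₁ : Set E} (hV₁ : V₁ ∈ 𝓝 (0 : E))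
    (hsel : ∀ j : ℕ, ∀ y ∈ boxC e j j, e j - y ∉ V₁) {t₁ : ℝ} (ht₁ : 0 < t₁) :
    ∃ V ∈ 𝓝 (0 : E), ∀ i : ℕ, ∃ T : ℝ, 0 ≤ T ∧ ∀ τ, T ≤ τ → ∀ τ', τ + 3 ≤ τ' →
      ∀ t ∈ Icc t₁ 1, ∀ κ ∈ boxC e i i, ∀ κ' ∈ boxC e i i, ∀ v ∈ V, ∀ v' ∈ V,
        t • (pathZ e τ' - pathZ e τ) ≠ (κ - κ') + (v - v') := by
  obtain ⟨V₂, hV₂, hV₂V₁⟩ := exists_add_mem hV₁
  obtain ⟨δ, hδ, hδe⟩ := exists_delta_of_bounded hb hV₂
  -- b₀
  set b₀ : ℝ := min (1 / 2) (δ / 2) with hb₀
  have hb₀pos : 0 < b₀ := by rw [hb₀]; positivity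
  have hb₀half : b₀ ≤ 1 / 2 := min_le_left _ _
  have hb₀δ : b₀ ≤ δ / 2 := min_le_right _ _
  obtain ⟨V₃, hV₃, hV₃s⟩ := exists_smul_sub_mem (inter_mem hV₁ hV₂) (max (1 / (t₁ * b₀)) (2 / t₁))
  refine ⟨V₃, hV₃, fun i => ?_⟩
  refine ⟨(i : ℝ) + (2 + 2 * i) / (t₁ * b₀) + 2 / t₁ * (1 + 2 * i), by positivity, ?_⟩
  intro τ hτ τ' hτ' t ht κ hκ κ' hκ' v hv v' hv' heq
  have ht0 : 0 < t := ht₁.trans_le ht.1
  have hτ0 : 0 ≤ τ := le_trans (by positivity) hτ
  obtain ⟨j, bj, hbj0, hbj1, hτeq, hjτ, hτj⟩ := exists_param τ hτ0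
  obtain ⟨k, b, hbk0, hbk1, hτ'eq, hkτ, hτk⟩ := exists_param τ' (by linarith)
  have hjk : j + 2 ≤ k := by
    have h1 : (j : ℝ) + 2 < k + 1 := by linarith
    have h2 : j + 2 < k + 1 := by exact_mod_cast h1
    omega
  have hT : (i : ℝ) + (2 + 2 * i) / (t₁ * b₀) + 2 / t₁ * (1 + 2 * i) ≤ k := by linarith
  have hA : (0:ℝ) ≤ (2 + 2 * i) / (t₁ * b₀) := by positivity
  have hB : (0:ℝ) ≤ 2 / t₁ * (1 + 2 * i) := by positivity
  have hik : i ≤ k := by
    have : (i : ℝ) ≤ k := by linarith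
    exact_mod_cast this
  have hi0 : (0:ℝ) ≤ i := Nat.cast_nonneg i
  -- the base combination
  have hx : t • pathZ e τ + (κ - κ') ∈ boxC e k (1 + 2 * i) := by
    have h1 : t • pathZ e τ ∈ boxC e k (|t| * 1) := by
      apply boxC_smul
      rw [hτeq]
      exact boxC_mono hjk le_rfl zero_le_one (pathZ_mem_boxC hbj0 hbj1.le)
    have h2 : κ - κ' ∈ boxC e k ((i : ℝ) + i) := by
      rw [sub_eq_add_neg]
      exact boxC_add (boxC_mono hik le_rfl hi0 hκ) (boxC_neg (boxC_mono hik le_rfl hi0 hκ'))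
    refine boxC_mono le_rfl ?_ (by positivity) (boxC_add h1 h2)
    rw [abs_of_pos ht0]
    linarith [ht.2]
  set x := t • pathZ e τ + (κ - κ') with hxdef
  have heq2 : t • pathZ e τ' = x + (v - v') := by
    rw [hxdef]
    have : t • pathZ e τ' = t • pathZ e τ + t • (pathZ e τ' - pathZ e τ) := by
      rw [smul_sub]; abel
    rw [this, heq]; abel
  rw [hτ'eq, pathZ_eq e k hbk0 hbk1.le] at heq2
  by_cases hcase : b₀ ≤ b
  · -- large second coefficient
    have hb : 0 < b := hb₀pos.trans_le hcase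
    have htb : 0 < t * b := mul_pos ht0 hb
    have htb' : (t * b)⁻¹ ≤ 1 / (t₁ * b₀) := by
      rw [one_div]
      exact inv_anti₀ (by positivity) (mul_le_mul ht.1 hcase hb₀pos.le ht0.le)
    set y := (t * b)⁻¹ • (x + (-(t * (1 - b))) • e k) with hy
    have hymem : y ∈ boxC e (k + 1) ((k + 1 : ℕ) : ℝ) := by
      have h1 : (-(t * (1 - b))) • e k ∈ boxC e (k + 1) (|-(t * (1 - b))| * 1) :=
        boxC_smul _ (boxC_single (by omega))
      have h2 := boxC_add (boxC_mono (Nat.le_succ k) le_rfl (by positivity) hx) h1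
      have h3 := boxC_smul (t * b)⁻¹ h2
      refine boxC_mono le_rfl ?_ (by positivity) h3
      rw [abs_of_pos (inv_pos.2 htb), abs_neg,
        abs_of_nonneg (mul_nonneg ht0.le (by linarith : (0:ℝ) ≤ 1 - b))]
      have h4 : (1 + 2 * (i:ℝ)) + t * (1 - b) * 1 ≤ 2 + 2 * i := by
        have : t * (1 - b) ≤ 1 * 1 := mul_le_mul ht.2 (by linarith) (by linarith) zero_le_one
        linarith
      calc (t * b)⁻¹ * ((1 + 2 * (i:ℝ)) + t * (1 - b) * 1)
          ≤ (1 / (t₁ * b₀)) * (2 + 2 * i) :=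
            mul_le_mul htb' h4 (by
              have : 0 ≤ t * (1 - b) := mul_nonneg ht0.le (by linarith)
              linarith) (by positivity)
        _ = (2 + 2 * i) / (t₁ * b₀) := by ring
        _ ≤ ((k + 1 : ℕ) : ℝ) := by push_cast; linarith
    have hdiff : e (k + 1) - y = (t * b)⁻¹ • (v - v') := by
      have h5 : (t * b) • e (k + 1) = x + (-(t * (1 - b))) • e k + (v - v') := by
        have : t • ((1 - b) • e k + b • e (k + 1))
            = (t * (1 - b)) • e k + (t * b) • e (k + 1) := by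
          rw [smul_add, smul_smul, smul_smul]
        rw [this] at heq2
        rw [neg_smul]
        have h6 : (t * b) • e (k + 1)
            = ((t * (1 - b)) • e k + (t * b) • e (k + 1)) - (t * (1 - b)) • e k := by abel
        rw [h6, heq2]; abel
      have h7 : e (k + 1) = (t * b)⁻¹ • ((t * b) • e (k + 1)) := by
        rw [smul_smul, inv_mul_cancel₀ htb.ne', one_smul]
      rw [h7, h5, hy, smul_add]
      abel
    apply hsel (k + 1) y hymem
    rw [hdiff]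
    refine (hV₃s _ ?_ v hv v' hv').1
    rw [abs_of_pos (inv_pos.2 htb)]
    exact htb'.trans (le_max_left _ _)
  · -- small second coefficient
    push Not at hcase
    have ha : 1 / 2 ≤ 1 - b := by linarith
    have ha0 : 0 < 1 - b := by linarith
    have hta : 0 < t * (1 - b) := mul_pos ht0 ha0
    have hta' : (t * (1 - b))⁻¹ ≤ 2 / t₁ := by
      have h1 : t₁ * (1 / 2) ≤ t * (1 - b) := mul_le_mul ht.1 ha (by norm_num) ht0.le
      have h2 := inv_anti₀ (by positivity) h1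
      refine h2.trans (le_of_eq ?_)
      field_simp
    set y := (t * (1 - b))⁻¹ • x with hy
    have hymem : y ∈ boxC e k k := by
      have h3 := boxC_smul (t * (1 - b))⁻¹ hx
      refine boxC_mono le_rfl ?_ (by positivity) h3
      rw [abs_of_pos (inv_pos.2 hta)]
      calc (t * (1 - b))⁻¹ * (1 + 2 * (i:ℝ)) ≤ 2 / t₁ * (1 + 2 * i) :=
            mul_le_mul_of_nonneg_right hta' (by positivity)
        _ ≤ k := by linarith
    have hdiff : e k - y = (-(b / (1 - b))) • e (k + 1) + (t * (1 - b))⁻¹ • (v - v') := by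
      have h5 : (t * (1 - b)) • e k = x + (v - v') - (t * b) • e (k + 1) := by
        have : t • ((1 - b) • e k + b • e (k + 1))
            = (t * (1 - b)) • e k + (t * b) • e (k + 1) := by
          rw [smul_add, smul_smul, smul_smul]
        rw [this] at heq2
        rw [← heq2]; abel
      have h7 : e k = (t * (1 - b))⁻¹ • ((t * (1 - b)) • e k) := by
        rw [smul_smul, inv_mul_cancel₀ hta.ne', one_smul]
      have h8 : (t * (1 - b))⁻¹ * (t * b) = b / (1 - b) := by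
        field_simp
      rw [h7, h5, hy, smul_sub, smul_add, smul_smul, h8, neg_smul]
      abel
    apply hsel k y hymem
    rw [hdiff]
    apply hV₂V₁
    · apply hδe
      rw [abs_neg, abs_of_nonneg (div_nonneg hbk0 ha0.le)]
      rw [div_le_iff₀ ha0]
      nlinarith
    · refine (hV₃s _ ?_ v hv v' hv').2
      rw [abs_of_pos (inv_pos.2 hta)]
      exact hta'.trans (le_max_right _ _)

/-- The key lemma: for every `t₁ > 0` there is a neighbourhood `V` such that the path leaves all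
translates of the boxes by more than `V`. -/
theorem key_lemma {e : ℕ → E} (hb : Bornology.IsVonNBounded ℝ (range e))
    {V₁ : Set E} (hV₁ : V₁ ∈ 𝓝 (0 : E))
    (hsel : ∀ j : ℕ, ∀ y ∈ boxC e j j, e j - y ∉ V₁) {t₁ : ℝ} (ht₁ : 0 < t₁) :
    ∃ V ∈ 𝓝 (0 : E), ∀ (i : ℕ) (q : E), ∀ t ∈ Icc t₁ 1, ∃ T : ℝ, 0 ≤ T ∧ ∀ τ, T ≤ τ →
      ∀ κ ∈ boxC e i i, q + t • pathZ e τ - κ ∉ V := by
  obtain ⟨V, hV, h⟩ := separation hb hV₁ hsel ht₁
  refine ⟨V, hV, fun i q t ht => ?_⟩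
  obtain ⟨T, hT0, hT⟩ := h i
  by_cases hex : ∃ τ, T ≤ τ ∧ ∃ κ ∈ boxC e i i, q + t • pathZ e τ - κ ∈ V
  · obtain ⟨τ₁, hτ₁, κ₁, hκ₁, hv₁⟩ := hex
    refine ⟨τ₁ + 3, by linarith, fun τ hτ κ hκ hv => ?_⟩
    apply hT τ₁ hτ₁ τ hτ t ht κ hκ κ₁ hκ₁ _ hv _ hv₁
    rw [smul_sub]
    abel
  · push Not at hex
    exact ⟨T, hT0, fun τ hτ κ hκ => hex τ hτ κ hκ⟩

end Pool.Agent.HLF
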