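import Pool.Agent.Lib.MP_5a68e6_HLF.B
import Pool.Agent.Lib.MP_5a68e6_HLF.C

set_option autoImplicit false
set_option linter.unusedSectionVars false

namespace Pool.Agent.HLF

open Set Filter Topology Pointwise TopologicalSpace

/-- A first countable topological additive group is paracompact. -/
theorem paracompact_of_group (G : Type*) [AddCommGroup G] [TopologicalSpace G]
    [IsTopologicalAddGroup G] [FirstCountableTopology G] : PseudoMetrizableSpace G := by
  letI := IsTopologicalAddGroup.rightUniformSpace G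
  haveI : IsUniformAddGroup G := isUniformAddGroup_of_addCommGroup
  haveI : (uniformity G).IsCountablyGenerated := IsUniformAddGroup.uniformity_countably_generated
  letI := UniformSpace.pseudoMetricSpace G
  infer_instance

theorem paracompact_of_pseudoMetrizable (X : Type*) [TopologicalSpace X]
    [PseudoMetrizableSpace X] : ParacompactSpace X := by
  letI := pseudoMetrizableSpacePseudoMetric X
  infer_instance

variable {E : Type*} [AddCommGroup E] [Module ℝ E] [TopologicalSpace E]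
  [IsTopologicalAddGroup E] [ContinuousSMul ℝ E]

/-- Choice of the small parameter. -/
theorem exists_small_param [MetrizableSpace E] {C : Set E} {e : ℕ → E}
    (hb : Bornology.IsVonNBounded ℝ (range e)) (𝒰 : Set (Set C))
    (ho : ∀ U ∈ 𝒰, IsOpen U) (hcov : ⋃₀ 𝒰 = univ) :
    ∃ t : C → ℝ, Continuous t ∧ (∀ x, 0 < t x ∧ t x ≤ 1) ∧ ∀ x, ∃ U ∈ 𝒰, x ∈ U ∧
      ∀ τ : ℝ, 0 ≤ τ → ∀ y : C, (y : E) = (1 - t x) • (x : E) + t x • pathZ e τ → y ∈ U := by
  haveI : ParacompactSpace C := paracompact_of_pseudoMetrizable C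
  let T : C → Set ℝ := fun x => {t | 0 < t ∧ t ≤ 1 ∧ ∃ U ∈ 𝒰, x ∈ U ∧ ∀ s, 0 < s → s ≤ t →
    ∀ τ : ℝ, 0 ≤ τ → ∀ y : C, (y : E) = (1 - s) • (x : E) + s • pathZ e τ → y ∈ U}
  have hconv : ∀ x, Convex ℝ (T x) := by
    intro x
    apply OrdConnected.convex
    refine ⟨?_⟩
    rintro a ⟨ha0, ha1, _⟩ b ⟨hb0, hb1, U, hU, hxU, h⟩ c ⟨hac, hcb⟩
    exact ⟨ha0.trans_le hac, hcb.trans hb1, U, hU, hxU, fun s hs0 hsc => h s hs0 (hsc.trans hcb)⟩
  have hloc : ∀ x : C, ∃ c : ℝ, ∀ᶠ y in 𝓝 x, c ∈ T y := by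
    intro x
    obtain ⟨U, hU, hxU⟩ : ∃ U ∈ 𝒰, x ∈ U := by
      have : x ∈ ⋃₀ 𝒰 := by rw [hcov]; trivial
      exact mem_sUnion.1 this
    obtain ⟨W, hW, hWU⟩ := isOpen_induced_iff.1 (ho U hU)
    have hxW : (x : E) ∈ W := by
      have : x ∈ Subtype.val ⁻¹' W := by rw [hWU]; exact hxU
      exact this
    -- a neighbourhood V with x + V + V in W
    have h0 : {v : E | (x : E) + v ∈ W} ∈ 𝓝 (0 : E) := by
      have hc : Continuous fun v : E => (x : E) + v := by fun_prop
      have := hc.tendsto 0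
      rw [add_zero] at this
      exact this (hW.mem_nhds hxW)
    obtain ⟨V, hV, hVW⟩ := exists_add_mem h0
    obtain ⟨δ, hδ, hδZ⟩ := exists_delta_path hb hV
    -- continuity of (s, y) ↦ (1 - s) y - x
    have hc : Continuous fun p : ℝ × C => (1 - p.1) • (p.2 : E) - (x : E) := by fun_prop
    have ht := hc.tendsto ((0 : ℝ), x)
    simp only [sub_zero, one_smul, sub_self] at ht
    have h1 := ht hV
    rw [nhds_prod_eq, mem_map] at h1
    obtain ⟨A, hA, B, hB, hAB⟩ := mem_prod_iff.1 h1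
    obtain ⟨ε, hε, hεA⟩ := Metric.mem_nhds_iff.1 hA
    have hUx : ∀ᶠ y in 𝓝 x, y ∈ U := (ho U hU).mem_nhds hxU
    refine ⟨min 1 (min δ (ε / 2)), ?_⟩
    filter_upwards [hB, hUx] with y hy hyU
    refine ⟨by positivity, min_le_left _ _, U, hU, hyU, fun s hs0 hs τ hτ z hz => ?_⟩
    have hsδ : |s| ≤ δ := by
      rw [abs_of_pos hs0]
      exact hs.trans ((min_le_right _ _).trans (min_le_left _ _))
    have hsε : s ∈ A := by
      apply hεA
      rw [Metric.mem_ball, Real.dist_eq, sub_zero, abs_of_pos hs0]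
      have : s ≤ ε / 2 := hs.trans ((min_le_right _ _).trans (min_le_right _ _))
      linarith
    have h2 : (1 - s) • (y : E) - (x : E) ∈ V := hAB (show (s, y) ∈ A ×ˢ B from ⟨hsε, hy⟩)
    have h3 : s • pathZ e τ ∈ V := hδZ s hsδ τ hτ
    have h4 := hVW _ h2 _ h3
    have h5 : (x : E) + ((1 - s) • (y : E) - (x : E) + s • pathZ e τ) = z := by
      rw [hz]; abel
    have h6 : (z : E) ∈ W := by
      rw [← h5]; exact h4
    have h7 : z ∈ Subtype.val ⁻¹' W := h6
    rwa [hWU] at h7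
  obtain ⟨g, hg⟩ := exists_continuous_forall_mem_convex_of_local_const hconv hloc
  refine ⟨g, g.continuous, fun x => ⟨(hg x).1, (hg x).2.1⟩, fun x => ?_⟩
  obtain ⟨h0, _, U, hU, hxU, h⟩ := hg x
  exact ⟨U, hU, hxU, h (g x) h0 le_rfl⟩

/-- The main construction: a convex set containing a bounded uniformly separated sequence has the
countable locally finite approximation property. -/
theorem lfap_of_bounded_separated [MetrizableSpace E] {C : Set E} (hC : Convex ℝ C)
    {e : ℕ → E} (he : ∀ n, e n ∈ C) (hb : Bornology.IsVonNBounded ℝ (range e))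
    {V₁ : Set E} (hV₁ : V₁ ∈ 𝓝 (0 : E)) (hsel : ∀ j : ℕ, ∀ y ∈ boxC e j j, e j - y ∉ V₁)
    (𝒰 : Set (Set C)) (ho : ∀ U ∈ 𝒰, IsOpen U) (hcov : ⋃₀ 𝒰 = univ) :
    ∃ f : ℕ → C → C, (∀ n, Continuous (f n)) ∧ (∀ n x, ∃ U ∈ 𝒰, x ∈ U ∧ f n x ∈ U) ∧
      LocallyFinite (fun n => closure (range (f n))) := by
  obtain ⟨t, htc, ht, htU⟩ := exists_small_param hb 𝒰 ho hcov
  -- the quotient by the span
  let H : Submodule ℝ E := Submodule.span ℝ (range e)
  let π : E → E ⧸ H := fun x => Submodule.Quotient.mk x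
  have hπc : Continuous π := continuous_quotient_mk'
  have hπo : IsOpenMap π := QuotientAddGroup.isOpenMap_coe
  haveI : FirstCountableTopology (E ⧸ H) :=
    inferInstanceAs (FirstCountableTopology (E ⧸ H.toAddSubgroup))
  haveI : PseudoMetrizableSpace (E ⧸ H) := paracompact_of_group (E ⧸ H)
  haveI : ParacompactSpace C := paracompact_of_pseudoMetrizable C
  let P := (E ⧸ H) × Ioi (0 : ℝ)
  haveI : ParacompactSpace P := paracompact_of_pseudoMetrizable P
  -- choices for every point of P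
  have hchoice : ∀ w : P, ∃ (s : E) (V V'' V''' : Set E), V ∈ 𝓝 (0 : E) ∧ V'' ∈ 𝓝 (0 : E) ∧
      IsOpen V''' ∧ (0 : E) ∈ V''' ∧ π s = w.1 ∧
      (∀ (i : ℕ) (q : E), ∀ r ∈ Icc ((w.2 : ℝ) / 2) 1, ∃ T : ℝ, 0 ≤ T ∧ ∀ τ, T ≤ τ →
        ∀ κ ∈ boxC e i i, q + r • pathZ e τ - κ ∉ V) ∧
      (∀ v ∈ V'', ∀ v' ∈ V'', v - v' ∈ V) ∧ (∀ v ∈ V''', ∀ v' ∈ V''', v + v' ∈ V'') := by
    intro w
    obtain ⟨s, hs⟩ := Submodule.Quotient.mk_surjective H w.1
    obtain ⟨V, hV, hkey⟩ := key_lemma hb hV₁ hsel (t₁ := (w.2 : ℝ) / 2)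
      (half_pos w.2.2)
    obtain ⟨V'', hV'', hsub⟩ := exists_smul_sub_mem hV 1
    obtain ⟨V₄, hV₄, hadd⟩ := exists_add_mem hV''
    obtain ⟨V₅, hV₅, hV₅o, h05⟩ := mem_nhds_iff.1 hV₄
    refine ⟨s, V, V'', V₅, hV, hV'', hV₅o, h05, hs, hkey, ?_, ?_⟩
    · intro v hv v' hv'
      have := hsub 1 (by simp) v hv v' hv'
      simpa using this
    · intro v hv v' hv'
      exact hadd v (hV₅ hv) v' (hV₅ hv')
  choose s V V'' V''' hV hV'' hV'''o hV'''0 hs hkey hsub hadd using hchoice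
  -- the cover of P
  let O : P → Set P := fun w =>
    (π '' {y : E | y - s w ∈ V''' w}) ×ˢ {r : Ioi (0 : ℝ) | (w.2 : ℝ) / 2 < r}
  have hOo : ∀ w, IsOpen (O w) := by
    intro w
    apply IsOpen.prod
    · apply hπo
      exact (hV'''o w).preimage (by fun_prop : Continuous fun y : E => y - s w)
    · exact isOpen_lt continuous_const continuous_subtype_val
  have hOc : ⋃ w, O w = univ := by
    rw [iUnion_eq_univ_iff]
    intro w
    refine ⟨w, ⟨s w, ?_, hs w⟩, ?_⟩
    · show s w - s w ∈ V''' w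
      rw [sub_self]
      exact hV'''0 w
    · show (w.2 : ℝ) / 2 < w.2
      have : (0:ℝ) < w.2 := w.2.2
      linarith
  obtain ⟨v, hvo, hvc, hvf, hvO⟩ := precise_refinement O hOo hOc
  -- the map q
  let q : C → P := fun x => (π ((1 - t x) • (x : E)), ⟨t x, (ht x).1⟩)
  have hqc : Continuous q := by
    apply Continuous.prodMk
    · exact hπc.comp (by fun_prop)
    · exact htc.subtype_mk _
  -- the parameter functions
  have hτex : ∀ i : ℕ, ∃ τ : C → ℝ, Continuous τ ∧ (∀ x, 0 ≤ τ x) ∧ ∀ x w, q x ∈ v w →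
      ∀ κ ∈ boxC e i i, (1 - t x) • (x : E) + t x • pathZ e (τ x) - s w - κ ∉ V'' w := by
    intro i
    let T : C → Set ℝ := fun x => {T | 0 ≤ T ∧ ∀ τ, T ≤ τ → ∀ w, q x ∈ v w →
      ∀ κ ∈ boxC e i i, (1 - t x) • (x : E) + t x • pathZ e τ - s w - κ ∉ V'' w}
    have hconv : ∀ x, Convex ℝ (T x) := by
      intro x
      apply OrdConnected.convex
      refine ⟨?_⟩
      rintro a ⟨ha0, ha⟩ b _ c ⟨hac, _⟩
      exact ⟨ha0.trans hac, fun τ hτ => ha τ (hac.trans hτ)⟩
    have hloc : ∀ x : C, ∃ c : ℝ, ∀ᶠ y in 𝓝 x, c ∈ T y := by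
      intro x
      obtain ⟨N, hN, hNf⟩ := hvf (q x)
      -- for every w a constant
      have hw : ∀ w : P, ∃ c : ℝ, 0 ≤ c ∧ ∀ᶠ y in 𝓝 x, ∀ τ, c ≤ τ → q y ∈ v w →
          ∀ κ ∈ boxC e i i, (1 - t y) • (y : E) + t y • pathZ e τ - s w - κ ∉ V'' w := by
        intro w
        by_cases hcase : (w.2 : ℝ) / 2 ≤ t x
        · obtain ⟨c, hc0, hc⟩ := hkey w i ((1 - t x) • (x : E) - s w) (t x) ⟨hcase, (ht x).2⟩
          refine ⟨c, hc0, ?_⟩
          -- perturbation
          obtain ⟨V₆, hV₆, hadd6⟩ := exists_add_mem (hV'' w)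
          obtain ⟨δ, hδ, hδZ⟩ := exists_delta_path hb hV₆
          have h1 : ∀ᶠ y in 𝓝 x, (1 - t y) • (y : E) - (1 - t x) • (x : E) ∈ V₆ := by
            have hcy : Continuous fun y : C => (1 - t y) • (y : E) - (1 - t x) • (x : E) := by
              fun_prop
            have := hcy.tendsto x
            rw [sub_self] at this
            exact this hV₆
          have h2 : ∀ᶠ y in 𝓝 x, |t y - t x| < δ := by
            have hcy : Continuous fun y : C => |t y - t x| := by fun_prop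
            have := hcy.tendsto x
            rw [sub_self, abs_zero] at this
            exact this.eventually (gt_mem_nhds hδ)
          filter_upwards [h1, h2] with y hy1 hy2 τ hτ _ κ hκ hmem
          apply hc τ hτ κ hκ
          have h3 : (t y - t x) • pathZ e τ ∈ V₆ := hδZ _ hy2.le τ (hc0.trans hτ)
          have h4 := hadd6 _ hy1 _ h3
          have h5 := hsub w _ hmem _ h4
          have h6 : (1 - t y) • (y : E) + t y • pathZ e τ - s w - κ -
              ((1 - t y) • (y : E) - (1 - t x) • (x : E) + (t y - t x) • pathZ e τ) =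
              (1 - t x) • (x : E) - s w + t x • pathZ e τ - κ := by
            rw [sub_smul (t y) (t x)]
            abel
          rwa [h6] at h5
        · push Not at hcase
          refine ⟨0, le_rfl, ?_⟩
          have h2 : ∀ᶠ y in 𝓝 x, t y < (w.2 : ℝ) / 2 :=
            (htc.tendsto x).eventually (gt_mem_nhds hcase)
          filter_upwards [h2] with y hy τ _ hq
          have := (hvO w hq).2
          exact absurd this (not_lt.2 hy.le)
      choose c hc0 hc using hw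
      obtain ⟨M, hM⟩ : ∃ M : ℝ, 0 ≤ M ∧ ∀ w ∈ hNf.toFinset, c w ≤ M := by
        refine ⟨∑ w ∈ hNf.toFinset, c w, Finset.sum_nonneg fun w _ => hc0 w, fun w hw => ?_⟩
        exact Finset.single_le_sum (fun w _ => hc0 w) hw
      refine ⟨M, ?_⟩
      have hfin : ∀ᶠ y in 𝓝 x, ∀ w ∈ hNf.toFinset, ∀ τ, c w ≤ τ → q y ∈ v w →
          ∀ κ ∈ boxC e i i, (1 - t y) • (y : E) + t y • pathZ e τ - s w - κ ∉ V'' w := by
        rw [Filter.eventually_all_finset]
        exact fun w _ => hc w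
      have hqN : ∀ᶠ y in 𝓝 x, q y ∈ N := (hqc.tendsto x) hN
      filter_upwards [hfin, hqN] with y hy hyN
      refine ⟨hM.1, fun τ hτ w hw => ?_⟩
      have hwf : w ∈ hNf.toFinset := by
        rw [Set.Finite.mem_toFinset]
        exact ⟨q y, hw, hyN⟩
      exact hy w hwf τ ((hM.2 w hwf).trans hτ) hw
    obtain ⟨g, hg⟩ := exists_continuous_forall_mem_convex_of_local_const hconv hloc
    exact ⟨g, g.continuous, fun x => (hg x).1, fun x => (hg x).2 (g x) le_rfl⟩
  choose τ hτc hτ0 hτ using hτex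
  -- the maps
  have hmem : ∀ i x, (1 - t x) • (x : E) + t x • pathZ e (τ i x) ∈ C := fun i x =>
    hC x.2 (pathZ_mem_convex hC he (hτ0 i x)) (by linarith [(ht x).2]) (ht x).1.le (by ring)
  let f : ℕ → C → C := fun i x => ⟨(1 - t x) • (x : E) + t x • pathZ e (τ i x), hmem i x⟩
  have hfc : ∀ i, Continuous (f i) := by
    intro i
    apply Continuous.subtype_mk
    have h1 : Continuous fun x : C => pathZ e (τ i x) := (continuous_pathZ e).comp (hτc i)
    fun_prop
  refine ⟨f, hfc, fun i x => ?_, ?_⟩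
  · obtain ⟨U, hU, hxU, h⟩ := htU x
    exact ⟨U, hU, hxU, h (τ i x) (hτ0 i x) (f i x) rfl⟩
  · apply LocallyFinite.closure
    intro p
    by_contra hcon
    push Not at hcon
    let F : ℕ × C → C := fun z => f z.1 z.2
    let 𝓕 : Filter (ℕ × C) := comap F (𝓝 p) ⊓ comap Prod.fst atTop
    haveI hne : 𝓕.NeBot := by
      rw [inf_neBot_iff]
      intro A hA B hB
      obtain ⟨A', hA', hAA⟩ := mem_comap.1 hA
      obtain ⟨B', hB', hBB⟩ := mem_comap.1 hB
      obtain ⟨N, hN⟩ := mem_atTop_sets.1 hB'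
      obtain ⟨i, hi, hiN⟩ := (hcon A' hA').exists_gt N
      obtain ⟨_, ⟨x, rfl⟩, hy⟩ := hi
      exact ⟨(i, x), hAA hy, hBB (hN i hiN.le)⟩
    let 𝒢 : Ultrafilter (ℕ × C) := Ultrafilter.of 𝓕
    have h𝒢 : (𝒢 : Filter (ℕ × C)) ≤ 𝓕 := Ultrafilter.of_le 𝓕
    have hFp : Tendsto F 𝒢 (𝓝 p) := tendsto_comap.mono_left (h𝒢.trans inf_le_left)
    have hi : Tendsto Prod.fst (𝒢 : Filter (ℕ × C)) atTop :=
      tendsto_comap.mono_left (h𝒢.trans inf_le_right)
    have hFpE : Tendsto (fun z => (F z : E)) 𝒢 (𝓝 (p : E)) :=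
      (continuous_subtype_val.tendsto p).comp hFp
    have hF : ∀ z : ℕ × C, (F z : E) = (1 - t z.2) • (z.2 : E) + t z.2 • pathZ e (τ z.1 z.2) :=
      fun z => rfl
    obtain ⟨t₀, ht₀I, ht₀⟩ : ∃ t₀ ∈ Icc (0 : ℝ) 1, Tendsto (fun z : ℕ × C => t z.2) 𝒢 (𝓝 t₀) := by
      have hK : IsCompact (Icc (0 : ℝ) 1) := isCompact_Icc
      have := hK.ultrafilter_le_nhds (𝒢.map (fun z : ℕ × C => t z.2)) (by
        rw [le_principal_iff, Ultrafilter.mem_coe, Ultrafilter.mem_map]
        apply Filter.Eventually.of_forall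
        intro z
        exact ⟨(ht z.2).1.le, (ht z.2).2⟩)
      obtain ⟨t₀, h1, h2⟩ := this
      exact ⟨t₀, h1, h2⟩
    have ht₀pos : 0 < t₀ := by
      rcases ht₀I.1.lt_or_eq with h | h
      · exact h
      · exfalso
        rw [← h] at ht₀
        -- t • Z → 0
        have h1 : Tendsto (fun z : ℕ × C => t z.2 • pathZ e (τ z.1 z.2)) 𝒢 (𝓝 0) := by
          intro W hW
          obtain ⟨δ, hδ, hδZ⟩ := exists_delta_path hb hW
          have h2 : ∀ᶠ z in (𝒢 : Filter (ℕ × C)), t z.2 < δ := ht₀.eventually (gt_mem_nhds hδ)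
          rw [mem_map]
          filter_upwards [h2] with z hz
          exact hδZ _ (by rw [abs_of_pos (ht z.2).1]; exact hz.le) _ (hτ0 _ _)
        have h2 : Tendsto (fun z : ℕ × C => (1 - t z.2) • (z.2 : E)) 𝒢 (𝓝 (p : E)) := by
          have h3 := hFpE.sub h1
          rw [sub_zero] at h3
          refine h3.congr fun z => ?_
          rw [hF z]; abel
        have h3 : Tendsto (fun z : ℕ × C => (1 - t z.2)⁻¹) 𝒢 (𝓝 1) := by
          have h4 : Tendsto (fun z : ℕ × C => 1 - t z.2) 𝒢 (𝓝 (1 - 0)) := ht₀.const_sub 1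
          rw [sub_zero] at h4
          have := h4.inv₀ one_ne_zero
          rwa [inv_one] at this
        have h4 : Tendsto (fun z : ℕ × C => (z.2 : E)) 𝒢 (𝓝 (p : E)) := by
          have h5 := h3.smul h2
          rw [one_smul] at h5
          refine h5.congr' ?_
          have h6 : ∀ᶠ z in (𝒢 : Filter (ℕ × C)), t z.2 < 1 :=
            ht₀.eventually (gt_mem_nhds zero_lt_one)
          filter_upwards [h6] with z hz
          rw [smul_smul, inv_mul_cancel₀ (by linarith), one_smul]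
        have h5 : Tendsto (fun z : ℕ × C => z.2) 𝒢 (𝓝 p) := by
          rw [tendsto_subtype_rng]
          exact h4
        have h6 := tendsto_nhds_unique ht₀ ((htc.tendsto p).comp h5)
        have := (ht p).1
        rw [← h6] at this
        exact lt_irrefl _ this
    -- the point of P
    let w₀ : P := (π p, ⟨t₀, ht₀pos⟩)
    obtain ⟨w, hw⟩ : ∃ w, w₀ ∈ v w := by
      have : w₀ ∈ ⋃ w, v w := by rw [hvc]; trivial
      exact mem_iUnion.1 this
    have hqlim : Tendsto (fun z : ℕ × C => q z.2) 𝒢 (𝓝 w₀) := by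
      rw [nhds_prod_eq]
      apply Tendsto.prodMk
      · have h1 : Tendsto (fun z : ℕ × C => π (F z : E)) 𝒢 (𝓝 (π p)) :=
          (hπc.tendsto (p : E)).comp hFpE
        refine h1.congr fun z => ?_
        rw [hF z]
        show Submodule.Quotient.mk _ = Submodule.Quotient.mk _
        rw [Submodule.Quotient.eq, add_sub_cancel_left]
        exact H.smul_mem _ (pathZ_mem_span (hτ0 _ _))
      · rw [tendsto_subtype_rng]
        exact ht₀
    have hqv : ∀ᶠ z in (𝒢 : Filter (ℕ × C)), q z.2 ∈ v w := hqlim ((hvo w).mem_nhds hw)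
    obtain ⟨⟨y, hy, hyp⟩, _⟩ := hvO w hw
    have hpy : (p : E) - y ∈ H := by
      have h1 : (Submodule.Quotient.mk (p : E) : E ⧸ H) = Submodule.Quotient.mk y := hyp.symm
      rwa [Submodule.Quotient.eq] at h1
    obtain ⟨n, hn⟩ := exists_mem_boxC_of_mem_span hpy
    have hin : ∀ᶠ z in (𝒢 : Filter (ℕ × C)), n ≤ z.1 := hi.eventually (eventually_ge_atTop n)
    have hsmall : ∀ᶠ z in (𝒢 : Filter (ℕ × C)), (F z : E) - p ∈ V''' w := by
      have h1 : Tendsto (fun z : ℕ × C => (F z : E) - p) 𝒢 (𝓝 0) := by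
        have := hFpE.sub_const (p : E)
        rwa [sub_self] at this
      exact h1 ((hV'''o w).mem_nhds (hV'''0 w))
    obtain ⟨z, hz1, hz2, hz3⟩ := (hqv.and (hin.and hsmall)).exists
    have hκ : (p : E) - y ∈ boxC e z.1 z.1 :=
      boxC_mono hz2 (by exact_mod_cast hz2) (by positivity) hn
    apply hτ z.1 z.2 w hz1 _ hκ
    have h7 := hadd w _ hz3 _ hy
    have h8 : (F z : E) - p + (y - s w) =
        (1 - t z.2) • (z.2 : E) + t z.2 • pathZ e (τ z.1 z.2) - s w - (p - y) := by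
      rw [hF z]; abel
    rwa [h8] at h7

end Pool.Agent.HLF
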